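import Mathlib

/-!
# Shadows of polynomials whose roots are in convex position need not be closed domains

(Definitions and lemmas of the library proof, copied.)

For `j ≥ 2` and `a, b > 0` let `P = (X ^ j - a ^ j) (X ^ j + b ^ j)`.  Its `2 j` roots are
`a e^{2 π i k / j}` and `b e^{π i (2 k + 1) / j}`.  They are in convex position when
`b cos (π / j) < a` and `a cos (π / j) < b` (for `j = 2` this is every rhombus), and they do not
form a regular polygon when `a ≠ b`.

All zeros of all derivatives of all powers of `P` lie on the `j` lines `{z | z ^ j ∈ ℝ}`: each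
such derivative is `X ^ r * R (X ^ j)` with a real polynomial `R` all whose roots are real.  So the
shadow of `P` has empty interior.
-/

set_option autoImplicit false

open Polynomial Complex

namespace Pool.Agent.KS6_23.SH

/-- The polynomial `Q_{n,m}`, the `m`-th derivative of `P ^ n`. -/
noncomputable def Q (P : ℂ[X]) (n m : ℕ) : ℂ[X] := derivative^[m] (P ^ n)

/-- The set `Z` of all complex zeros of all the polynomials `Q_{n,m}`, `n ≥ 1`, `0 ≤ m ≤ n d`,
where `d` is the degree of `P`. -/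
def zeroSet (P : ℂ[X]) : Set ℂ :=
  {z | ∃ n m : ℕ, 1 ≤ n ∧ m ≤ n * P.natDegree ∧ (Q P n m).IsRoot z}

/-- The shadow of `P`, the closure of `Z`. -/
def shadow (P : ℂ[X]) : Set ℂ := closure (zeroSet P)

/-- The roots of `P` are in convex position: they are distinct, and none of them lies in the
convex hull of the others. -/
def RootsInConvexPosition (P : ℂ[X]) : Prop :=
  P.roots.Nodup ∧ ∀ z, P.IsRoot z → z ∉ convexHull ℝ {w | P.IsRoot w ∧ w ≠ z}

/-- The roots of `P` are the vertices `c + r e^{2 π i k / d}`, `0 ≤ k < d`, of a regular `d`-gon,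
where `d` is the degree of `P` (`r ≠ 0` is a complex number). -/
def RootsFormRegularPolygon (P : ℂ[X]) : Prop :=
  ∃ c r : ℂ, r ≠ 0 ∧
    {z | P.IsRoot z} = {z | ∃ k < P.natDegree, z = c + r * exp (2 * Real.pi * I * k / P.natDegree)}

/-- A closed domain: the closure of a nonempty connected open subset of the plane. -/
def IsClosedDomain (S : Set ℂ) : Prop :=
  ∃ U : Set ℂ, IsOpen U ∧ U.Nonempty ∧ IsConnected U ∧ S = closure U

/-- The polynomial `(X ^ j - a ^ j) (X ^ j + b ^ j)`. -/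
noncomputable def poly (j : ℕ) (a b : ℝ) : ℂ[X] :=
  (X ^ j - C ((a : ℂ) ^ j)) * (X ^ j + C ((b : ℂ) ^ j))

/-! ### Real-rooted polynomials -/

theorem splits_derivative {f : ℝ[X]} (hf : f.Splits) : (derivative f).Splits := by
  rw [splits_iff_card_roots] at hf ⊢
  rcases Nat.eq_zero_or_pos f.natDegree with h0 | h0
  · have : derivative f = 0 := by
      rw [natDegree_eq_zero] at h0
      obtain ⟨x, rfl⟩ := h0
      simp
    rw [this]; simp
  · have h1 := card_roots_le_derivative f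
    have h2 := card_roots' (derivative f)
    have h3 : (derivative f).natDegree < f.natDegree := natDegree_derivative_lt h0.ne'
    omega

/-- If `R` is real-rooted then so is `r R + j X R'`. -/
theorem splits_comb {R : ℝ[X]} (hR : R.Splits) (r j : ℕ) (hr : 1 ≤ r) (hj : 1 ≤ j) :
    (C (r : ℝ) * R + C (j : ℝ) * X * derivative R).Splits := by
  by_cases hR0 : R = 0
  · subst hR0; simp
  have h1 : (derivative (X ^ r * R ^ j)).Splits :=
    splits_derivative ((Splits.X_pow r).mul (hR.pow j))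
  have h2 : derivative (X ^ r * R ^ j) =
      (X ^ (r - 1) * R ^ (j - 1)) * (C (r : ℝ) * R + C (j : ℝ) * X * derivative R) := by
    obtain ⟨r', rfl⟩ : ∃ r', r = r' + 1 := ⟨r - 1, by omega⟩
    obtain ⟨j', rfl⟩ : ∃ j', j = j' + 1 := ⟨j - 1, by omega⟩
    rw [derivative_mul, derivative_X_pow, derivative_pow]
    simp only [Nat.add_sub_cancel, C_eq_natCast]
    push_cast
    ring
  rw [h2] at h1
  by_cases h3 : C (r : ℝ) * R + C (j : ℝ) * X * derivative R = 0
  · rw [h3]; exact Splits.zero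
  · refine h1.of_dvd ?_ (Dvd.intro_left _ rfl)
    refine mul_ne_zero (mul_ne_zero (pow_ne_zero _ X_ne_zero) (pow_ne_zero _ hR0)) h3

/-- The class of real polynomials `X ^ r R(X ^ j)` with `R` real-rooted. -/
def Cls (j : ℕ) (f : ℝ[X]) : Prop := ∃ (r : ℕ) (R : ℝ[X]), R.Splits ∧ f = X ^ r * expand ℝ j R

theorem Cls.derivative {j : ℕ} (hj : 1 ≤ j) {f : ℝ[X]} (hf : Cls j f) :
    Cls j (Polynomial.derivative f) := by
  obtain ⟨r, R, hR, rfl⟩ := hf
  rcases Nat.eq_zero_or_pos r with rfl | hr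
  · refine ⟨j - 1, C (j : ℝ) * Polynomial.derivative R, (splits_derivative hR).C_mul _, ?_⟩
    rw [pow_zero, one_mul, derivative_expand, map_mul, expand_C, C_eq_natCast]
    ring
  · refine ⟨r - 1, _, splits_comb hR r j hr hj, ?_⟩
    obtain ⟨r', rfl⟩ : ∃ r', r = r' + 1 := ⟨r - 1, by omega⟩
    obtain ⟨j', rfl⟩ : ∃ j', j = j' + 1 := ⟨j - 1, by omega⟩
    rw [derivative_mul, derivative_X_pow, derivative_expand]
    simp only [map_add, map_mul, expand_C, expand_X, Nat.add_sub_cancel]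
    simp only [C_eq_natCast]
    push_cast
    ring

theorem Cls.iterate {j : ℕ} (hj : 1 ≤ j) {f : ℝ[X]} (hf : Cls j f) (m : ℕ) :
    Cls j (Polynomial.derivative^[m] f) := by
  induction m with
  | zero => exact hf
  | succ m ih => rw [Function.iterate_succ_apply']; exact ih.derivative hj

theorem Cls.root {j : ℕ} (hj : 1 ≤ j) {f : ℝ[X]} (hf : Cls j f) (hf0 : f ≠ 0) {z : ℂ}
    (hz : (f.map (algebraMap ℝ ℂ)).IsRoot z) : (z ^ j).im = 0 := by
  obtain ⟨r, R, hR, rfl⟩ := hf
  rw [IsRoot.def, Polynomial.map_mul, Polynomial.map_pow, map_X, map_expand, eval_mul, eval_pow,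
    eval_X, expand_eval, mul_eq_zero] at hz
  rcases hz with hz | hz
  · have h0 : z = 0 := by
      by_contra h
      exact pow_ne_zero r h hz
    rw [h0, zero_pow (by omega)]; simp
  · have hR0 : R ≠ 0 := by
      rintro rfl
      simp at hf0
    have h1 : (R.map (algebraMap ℝ ℂ)).IsRoot (z ^ j) := hz
    have h2 := Splits.mem_range_of_isRoot hR hR0 h1
    obtain ⟨x, hx⟩ := h2
    rw [← hx]; simp

/-! ### The polynomial -/

/-- The real polynomial `R(X)` with `P = R(X ^ j)`. -/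
noncomputable def base (j : ℕ) (a b : ℝ) : ℝ[X] := (X - C (a ^ j)) * (X + C (b ^ j))

theorem poly_eq (j : ℕ) (a b : ℝ) : poly j a b = (expand ℝ j (base j a b)).map (algebraMap ℝ ℂ) := by
  unfold poly base
  simp only [map_mul, map_sub, map_add, expand_X, expand_C, Polynomial.map_mul, Polynomial.map_sub,
    Polynomial.map_add, Polynomial.map_pow, map_X, map_C, coe_algebraMap, ofReal_pow]

theorem base_splits (j : ℕ) (a b : ℝ) : (base j a b).Splits :=
  (Splits.X_sub_C _).mul (Splits.X_add_C _)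

theorem natDegree_poly {j : ℕ} (hj : 1 ≤ j) (a b : ℝ) : (poly j a b).natDegree = 2 * j := by
  unfold poly
  have h1 : (X ^ j - C ((a : ℂ) ^ j)).Monic := monic_X_pow_sub_C _ (by omega)
  have h2 : (X ^ j + C ((b : ℂ) ^ j)).Monic := monic_X_pow_add_C _ (by omega)
  rw [h1.natDegree_mul h2, natDegree_X_pow_sub_C, natDegree_X_pow_add_C]
  ring

/-- All zeros of all the polynomials `Q_{n,m}` lie on the `j` lines `z ^ j ∈ ℝ`. -/
theorem zeroSet_subset {j : ℕ} (hj : 1 ≤ j) (a b : ℝ) :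
    zeroSet (poly j a b) ⊆ {z | (z ^ j).im = 0} := by
  rintro z ⟨n, m, hn, hm, hz⟩
  have hQ : Q (poly j a b) n m =
      (Polynomial.derivative^[m] (expand ℝ j (base j a b ^ n))).map (algebraMap ℝ ℂ) := by
    unfold Q
    rw [poly_eq, ← Polynomial.map_pow, ← map_pow, iterate_derivative_map]
  have hc : Cls j (Polynomial.derivative^[m] (expand ℝ j (base j a b ^ n))) :=
    Cls.iterate hj ⟨0, base j a b ^ n, (base_splits j a b).pow n, by rw [pow_zero, one_mul]⟩ m
  rw [hQ] at hz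
  refine hc.root hj ?_ hz
  -- the derivative is not the zero polynomial
  intro h0
  have hP : (poly j a b).Monic := by
    unfold poly
    exact (monic_X_pow_sub_C _ (by omega)).mul (monic_X_pow_add_C _ (by omega))
  have h1 : Q (poly j a b) n m = 0 := by rw [hQ, h0, Polynomial.map_zero]
  have h2 : (poly j a b ^ n).natDegree = n * (poly j a b).natDegree := natDegree_pow _ _
  have h3 : (Q (poly j a b) n m).coeff (n * (poly j a b).natDegree - m) = 0 := by
    rw [h1, coeff_zero]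
  unfold Q at h3
  rw [coeff_iterate_derivative, Nat.sub_add_cancel hm, ← h2] at h3
  have h4 : (poly j a b ^ n).coeff (poly j a b ^ n).natDegree = 1 := (hP.pow n)
  rw [h4] at h3
  simp only [nsmul_eq_mul, mul_one, Nat.cast_eq_zero] at h3
  rw [Nat.descFactorial_eq_zero_iff_lt] at h3
  omega

theorem isClosed_lines (j : ℕ) : IsClosed {z : ℂ | (z ^ j).im = 0} :=
  isClosed_eq (by fun_prop) continuous_const

theorem shadow_subset {j : ℕ} (hj : 1 ≤ j) (a b : ℝ) :
    shadow (poly j a b) ⊆ {z | (z ^ j).im = 0} :=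
  closure_minimal (zeroSet_subset hj a b) (isClosed_lines j)

/-- A nonempty open set is not contained in `{z | z ^ j ∈ ℝ}`, `j ≥ 1`. -/
theorem not_open_subset {j : ℕ} (hj : 1 ≤ j) {U : Set ℂ} (hU : IsOpen U) (hne : U.Nonempty) :
    ¬ U ⊆ {z | (z ^ j).im = 0} := by
  intro h
  have h1 : IsOpenMap (fun z : ℂ => z ^ j) := by
    have h2 : AnalyticOnNhd ℂ (fun z : ℂ => z ^ j) Set.univ := fun z _ => by fun_prop
    rcases h2.is_constant_or_isOpenMap with ⟨w, hw⟩ | h3
    · exfalso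
      have e0 := hw 0
      have e1 := hw 1
      rw [zero_pow (by omega)] at e0
      rw [one_pow] at e1
      rw [← e0] at e1
      exact one_ne_zero e1
    · exact h3
  have h2 := h1 U hU
  have h3 : IsOpenMap Complex.im := isOpenMap_im
  have h4 := h3 _ h2
  have h5 : Complex.im '' ((fun z : ℂ => z ^ j) '' U) = {0} := by
    ext x
    simp only [Set.mem_image, Set.mem_singleton_iff]
    constructor
    · rintro ⟨w, ⟨z, hz, rfl⟩, rfl⟩
      exact h hz
    · rintro rfl
      obtain ⟨z, hz⟩ := hne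
      exact ⟨z ^ j, ⟨z, hz, rfl⟩, h hz⟩
  rw [h5] at h4
  exact not_isOpen_singleton (0 : ℝ) h4

theorem not_closedDomain {j : ℕ} (hj : 1 ≤ j) (a b : ℝ) :
    ¬ IsClosedDomain (shadow (poly j a b)) := by
  rintro ⟨U, hU, hne, -, hS⟩
  refine not_open_subset hj hU hne ?_
  exact (subset_closure.trans hS.ge).trans (shadow_subset hj a b)

/-! ### The roots -/

theorem isRoot_poly {j : ℕ} {a b : ℝ} {z : ℂ} :
    (poly j a b).IsRoot z ↔ z ^ j = (a : ℂ) ^ j ∨ z ^ j = -(b : ℂ) ^ j := by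
  unfold poly
  rw [IsRoot.def, eval_mul, mul_eq_zero]
  simp only [eval_sub, eval_add, eval_pow, eval_X, eval_C]
  rw [sub_eq_zero, add_eq_zero_iff_eq_neg]

theorem norm_of_pow {j : ℕ} (hj : 1 ≤ j) {a : ℝ} (ha : 0 < a) {z : ℂ}
    (hz : z ^ j = (a : ℂ) ^ j) : ‖z‖ = a := by
  have h := congrArg norm hz
  rw [norm_pow, norm_pow, norm_real, Real.norm_of_nonneg ha.le] at h
  exact (pow_left_inj₀ (norm_nonneg _) ha.le (by omega)).1 h

theorem norm_of_pow_neg {j : ℕ} (hj : 1 ≤ j) {b : ℝ} (hb : 0 < b) {z : ℂ}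
    (hz : z ^ j = -(b : ℂ) ^ j) : ‖z‖ = b := by
  have h := congrArg norm hz
  rw [norm_neg, norm_pow, norm_pow, norm_real, Real.norm_of_nonneg hb.le] at h
  exact (pow_left_inj₀ (norm_nonneg _) hb.le (by omega)).1 h

theorem re_le_cos {j : ℕ} (hj : 1 ≤ j) {u : ℂ} (hu : ‖u‖ = 1) (h : u ^ j = -1) :
    u.re ≤ Real.cos (Real.pi / j) := by
  have hj' : (0 : ℝ) < j := by exact_mod_cast hj
  have e : u = exp (u.arg * I) := by
    have := norm_mul_exp_arg_mul_I u
    rw [hu, ofReal_one, one_mul] at this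
    exact this.symm
  have hre : u.re = Real.cos |u.arg| := by
    rw [Real.cos_abs]
    conv_lhs => rw [e]
    rw [exp_ofReal_mul_I_re]
  rw [hre]
  have hcos : Real.cos (j * u.arg) = -1 := by
    have h1 : u ^ j = exp (((j * u.arg : ℝ) : ℂ) * I) := by
      conv_lhs => rw [e]
      rw [← exp_nat_mul]
      congr 1
      push_cast
      ring
    rw [h1] at h
    have h2 := congrArg Complex.re h
    rw [exp_ofReal_mul_I_re] at h2
    simpa using h2
  by_contra hlt
  push Not at hlt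
  have h3 : |u.arg| < Real.pi / j := by
    by_contra h4
    push Not at h4
    have := Real.cos_le_cos_of_nonneg_of_le_pi (by positivity) (abs_arg_le_pi u) h4
    linarith
  have h5 : |(j : ℝ) * u.arg| < Real.pi := by
    rw [abs_mul, abs_of_pos hj']
    rw [lt_div_iff₀ hj'] at h3
    linarith [mul_comm (|u.arg|) (j : ℝ)]
  have h6 : Real.cos Real.pi < Real.cos |(j : ℝ) * u.arg| :=
    Real.cos_lt_cos_of_nonneg_of_le_pi (abs_nonneg _) le_rfl h5
  rw [Real.cos_abs, hcos, Real.cos_pi] at h6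
  exact lt_irrefl _ h6

theorem re_lt_same {w z : ℂ} {a : ℝ} (hw : ‖w‖ = a) (hz : ‖z‖ = a) (hne : w ≠ z) :
    (w * (starRingEnd ℂ) z).re < ‖z‖ ^ 2 := by
  have h1 : 0 < ‖w - z‖ ^ 2 := by
    have : 0 < ‖w - z‖ := norm_pos_iff.2 (sub_ne_zero.2 hne)
    positivity
  have h2 := Complex.normSq_sub w z
  rw [← Complex.sq_norm, ← Complex.sq_norm, ← Complex.sq_norm, hw, hz] at h2
  rw [hz]
  linarith

theorem re_lt_diff {j : ℕ} (hj : 1 ≤ j) {w z : ℂ} {a b : ℝ} (ha : 0 < a) (hb : 0 < b)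
    (hw : ‖w‖ = b) (hz : ‖z‖ = a) (hq : w ^ j * (a : ℂ) ^ j = - (z ^ j * (b : ℂ) ^ j))
    (hcos : b * Real.cos (Real.pi / j) < a) :
    (w * (starRingEnd ℂ) z).re < ‖z‖ ^ 2 := by
  have hz0 : z ≠ 0 := by
    rw [← norm_pos_iff, hz]; exact ha
  have ha0 : (a : ℂ) ≠ 0 := by exact_mod_cast ha.ne'
  have hb0 : (b : ℂ) ≠ 0 := by exact_mod_cast hb.ne'
  set u : ℂ := w / z * (a / b) with hu
  have hu1 : ‖u‖ = 1 := by
    rw [hu, norm_mul, norm_div, norm_div, hw, hz, norm_real, norm_real,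
      Real.norm_of_nonneg ha.le, Real.norm_of_nonneg hb.le]
    field_simp
  have hu2 : u ^ j = -1 := by
    rw [hu, mul_pow, div_pow, div_pow]
    have e1 : z ^ j ≠ 0 := pow_ne_zero _ hz0
    have e2 : (b : ℂ) ^ j ≠ 0 := pow_ne_zero _ hb0
    rw [div_mul_div_comm, hq, neg_div, div_self (mul_ne_zero e1 e2)]
  have hu3 := re_le_cos hj hu1 hu2
  have e3 : w * (starRingEnd ℂ) z = ((a * b : ℝ) : ℂ) * u := by
    have e4 : z * (starRingEnd ℂ) z = ((a ^ 2 : ℝ) : ℂ) := by
      rw [mul_conj, normSq_eq_norm_sq, hz]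
    have e5 : w = u * z * b / a := by
      rw [hu]; field_simp
    calc w * (starRingEnd ℂ) z = u * b / a * (z * (starRingEnd ℂ) z) := by
          conv_lhs => rw [e5]
          ring
      _ = ((a * b : ℝ) : ℂ) * u := by
          rw [e4]; push_cast; field_simp
  rw [e3, re_ofReal_mul, hz]
  have : a * b * u.re ≤ a * b * Real.cos (Real.pi / j) :=
    mul_le_mul_of_nonneg_left hu3 (by positivity)
  nlinarith

theorem convexPosition {j : ℕ} (hj : 1 ≤ j) {a b : ℝ} (ha : 0 < a) (hb : 0 < b)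
    (h1 : b * Real.cos (Real.pi / j) < a) (h2 : a * Real.cos (Real.pi / j) < b) :
    RootsInConvexPosition (poly j a b) := by
  constructor
  · have ha0 : (a : ℂ) ^ j ≠ 0 := pow_ne_zero _ (by exact_mod_cast ha.ne')
    have hb0 : -(b : ℂ) ^ j ≠ 0 := neg_ne_zero.2 (pow_ne_zero _ (by exact_mod_cast hb.ne'))
    have hj0 : (j : ℂ) ≠ 0 := by exact_mod_cast (by omega : j ≠ 0)
    refine nodup_roots ?_
    unfold poly
    have s1 : (X ^ j - C ((a : ℂ) ^ j)).Separable := separable_X_pow_sub_C _ hj0 ha0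
    have s2 : (X ^ j + C ((b : ℂ) ^ j)).Separable := by
      have := separable_X_pow_sub_C (n := j) _ hj0 hb0
      simpa using this
    refine s1.mul s2 ?_
    refine ⟨-C (((a : ℂ) ^ j + (b : ℂ) ^ j)⁻¹), C (((a : ℂ) ^ j + (b : ℂ) ^ j)⁻¹), ?_⟩
    have hs : (a : ℂ) ^ j + (b : ℂ) ^ j ≠ 0 := by
      have : (0 : ℝ) < a ^ j + b ^ j := by positivity
      exact_mod_cast this.ne'
    calc -C (((a : ℂ) ^ j + (b : ℂ) ^ j)⁻¹) * (X ^ j - C ((a : ℂ) ^ j)) +
          C (((a : ℂ) ^ j + (b : ℂ) ^ j)⁻¹) * (X ^ j + C ((b : ℂ) ^ j))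
        = C (((a : ℂ) ^ j + (b : ℂ) ^ j)⁻¹) * (C ((a : ℂ) ^ j) + C ((b : ℂ) ^ j)) := by ring
      _ = 1 := by rw [← C_add, ← C_mul, inv_mul_cancel₀ hs, C_1]
  · intro z hz hmem
    have hsub : {w | (poly j a b).IsRoot w ∧ w ≠ z} ⊆
        {w : ℂ | (w * (starRingEnd ℂ) z).re < ‖z‖ ^ 2} := by
      rintro w ⟨hw, hne⟩
      rw [isRoot_poly] at hw hz
      rcases hw with hw | hw <;> rcases hz with hz | hz
      · exact re_lt_same (norm_of_pow hj ha hw) (norm_of_pow hj ha hz) hne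
      · exact re_lt_diff hj hb ha (norm_of_pow hj ha hw) (norm_of_pow_neg hj hb hz)
          (by rw [hw, hz]; ring) h2
      · exact re_lt_diff hj ha hb (norm_of_pow_neg hj hb hw) (norm_of_pow hj ha hz)
          (by rw [hw, hz]; ring) h1
      · exact re_lt_same (norm_of_pow_neg hj hb hw) (norm_of_pow_neg hj hb hz) hne
    have hconv : Convex ℝ {w : ℂ | (w * (starRingEnd ℂ) z).re < ‖z‖ ^ 2} := by
      refine convex_halfSpace_lt (f := fun w : ℂ => (w * (starRingEnd ℂ) z).re) ?_ _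
      refine ⟨fun x y => by simp only [add_mul, add_re], fun c x => ?_⟩
      simp only [real_smul, mul_assoc, re_ofReal_mul, smul_eq_mul]
    have h3 := convexHull_min hsub hconv hmem
    have h4 : (z * (starRingEnd ℂ) z).re = ‖z‖ ^ 2 := by
      rw [mul_conj, normSq_eq_norm_sq, ofReal_re]
    change (z * (starRingEnd ℂ) z).re < ‖z‖ ^ 2 at h3
    rw [h4] at h3
    exact lt_irrefl _ h3

theorem not_regular {j : ℕ} (hj : 2 ≤ j) {a b : ℝ} (ha : 0 < a) (hb : 0 < b) (hab : a ≠ b) :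
    ¬ RootsFormRegularPolygon (poly j a b) := by
  rintro ⟨c, r, hr, hS⟩
  have hdist : ∀ w, (poly j a b).IsRoot w → ‖w - c‖ = ‖r‖ := by
    intro w hw
    have : w ∈ {z | (poly j a b).IsRoot z} := hw
    rw [hS] at this
    obtain ⟨k, -, rfl⟩ := this
    rw [add_sub_cancel_left, norm_mul]
    have : exp (2 * Real.pi * I * k / (poly j a b).natDegree) =
        exp (((2 * Real.pi * k / (poly j a b).natDegree : ℝ) : ℂ) * I) := by
      congr 1
      push_cast
      ring
    rw [this, norm_exp_ofReal_mul_I, mul_one]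
  have hprim := Complex.isPrimitiveRoot_exp j (by omega)
  set ω := exp (2 * Real.pi * I / j) with hω
  have hω1 : ω ^ j = 1 := hprim.pow_eq_one
  have hsum : ∑ k ∈ Finset.range j, ω ^ k = 0 := hprim.geom_sum_eq_zero (by omega)
  have hnω : ∀ k : ℕ, ‖ω ^ k‖ = 1 := by
    intro k
    rw [norm_pow, hprim.norm'_eq_one (by omega), one_pow]
  -- the average over the rotations
  have key : ∀ w, (poly j a b).IsRoot w → ‖w‖ ^ 2 + ‖c‖ ^ 2 = ‖r‖ ^ 2 := by
    intro w hw
    have h1 : ∀ k ∈ Finset.range j, ‖ω ^ k * w - c‖ ^ 2 = ‖r‖ ^ 2 := by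
      intro k _
      rw [hdist]
      rw [isRoot_poly] at hw ⊢
      rw [mul_pow, ← pow_mul, mul_comm k j, pow_mul, hω1, one_pow, one_mul]
      exact hw
    have h2 : ∀ k ∈ Finset.range j, ‖ω ^ k * w - c‖ ^ 2 =
        ‖w‖ ^ 2 + ‖c‖ ^ 2 - 2 * (ω ^ k * (w * (starRingEnd ℂ) c)).re := by
      intro k _
      have h3 := Complex.normSq_sub (ω ^ k * w) c
      rw [← Complex.sq_norm, ← Complex.sq_norm, ← Complex.sq_norm, norm_mul, hnω, one_mul] at h3
      rw [h3, mul_assoc]
    have h4 : ∑ k ∈ Finset.range j, ‖r‖ ^ 2 =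
        ∑ k ∈ Finset.range j, (‖w‖ ^ 2 + ‖c‖ ^ 2 - 2 * (ω ^ k * (w * (starRingEnd ℂ) c)).re) := by
      refine Finset.sum_congr rfl fun k hk => ?_
      rw [← h1 k hk, h2 k hk]
    rw [Finset.sum_sub_distrib, ← Finset.mul_sum, ← Complex.re_sum, ← Finset.sum_mul, hsum,
      zero_mul, zero_re, mul_zero, sub_zero, Finset.sum_const, Finset.sum_const,
      Finset.card_range] at h4
    have hj0 : (j : ℝ) ≠ 0 := by exact_mod_cast (by omega : j ≠ 0)
    simp only [nsmul_eq_mul] at h4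
    exact (mul_left_cancel₀ hj0 h4).symm
  have k1 := key a (isRoot_poly.2 (Or.inl rfl))
  have k2 : ∃ w : ℂ, w ^ j = -(b : ℂ) ^ j := by
    obtain ⟨w, hw⟩ := IsAlgClosed.exists_pow_nat_eq (-(b : ℂ) ^ j) (by omega : 0 < j)
    exact ⟨w, hw⟩
  obtain ⟨w, hw⟩ := k2
  have k3 := key w (isRoot_poly.2 (Or.inr hw))
  rw [norm_of_pow_neg (by omega) hb hw] at k3
  rw [norm_real, Real.norm_of_nonneg ha.le] at k1
  have k4 : a ^ 2 = b ^ 2 := by linarith
  exact hab ((pow_left_inj₀ ha.le hb.le (by norm_num)).1 k4)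

end Pool.Agent.KS6_23.SH
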