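import Pool.Agent.KS6_23.SH.Base

/-!
# The chain of real-rooted polynomials

The `m`-th derivative of `F(X^j)` is `X^r R(X^j)`, `(r, R) = chain j F m`.
-/

set_option autoImplicit false

open Polynomial

namespace Pool.Agent.KS6_23.SH

/-- One step: `(X^r R(X^j))' = X^{r'} R'(X^j)`. -/
noncomputable def step (j : ℕ) (p : ℕ × ℝ[X]) : ℕ × ℝ[X] :=
  if p.1 = 0 then (j - 1, C (j : ℝ) * derivative p.2)
  else (p.1 - 1, C (p.1 : ℝ) * p.2 + C (j : ℝ) * X * derivative p.2)

/-- The chain. -/
noncomputable def chain (j : ℕ) (F : ℝ[X]) (m : ℕ) : ℕ × ℝ[X] := (step j)^[m] (0, F)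

theorem chain_zero (j : ℕ) (F : ℝ[X]) : chain j F 0 = (0, F) := rfl

theorem chain_succ (j : ℕ) (F : ℝ[X]) (m : ℕ) : chain j F (m + 1) = step j (chain j F m) := by
  unfold chain
  rw [Function.iterate_succ_apply']

theorem step_eq {j : ℕ} (hj : 1 ≤ j) (p : ℕ × ℝ[X]) :
    X ^ (step j p).1 * expand ℝ j (step j p).2 = derivative (X ^ p.1 * expand ℝ j p.2) := by
  obtain ⟨r, R⟩ := p
  obtain ⟨j', rfl⟩ : ∃ j', j = j' + 1 := ⟨j - 1, by omega⟩
  unfold step
  rcases Nat.eq_zero_or_pos r with rfl | hr
  · simp only [if_true, pow_zero, one_mul]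
    rw [derivative_expand, map_mul, expand_C, C_eq_natCast]
    simp only [Nat.add_sub_cancel]
    ring
  · obtain ⟨r', rfl⟩ : ∃ r', r = r' + 1 := ⟨r - 1, by omega⟩
    rw [if_neg (Nat.succ_ne_zero r')]
    simp only
    rw [derivative_mul, derivative_X_pow, derivative_expand]
    simp only [map_add, map_mul, expand_C, expand_X, Nat.add_sub_cancel]
    simp only [C_eq_natCast]
    push_cast
    ring

theorem chain_eq {j : ℕ} (hj : 1 ≤ j) (F : ℝ[X]) (m : ℕ) :
    X ^ (chain j F m).1 * expand ℝ j (chain j F m).2 = derivative^[m] (expand ℝ j F) := by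
  induction m with
  | zero => simp [chain_zero]
  | succ m ih => rw [chain_succ, step_eq hj, ih, Function.iterate_succ_apply']

/-- The invariants of the chain. -/
def Good (j : ℕ) (lo hi : ℝ) (D : ℕ) (p : ℕ × ℝ[X]) : Prop :=
  p.2.Splits ∧ 0 < p.2.leadingCoeff ∧ (∀ y, p.2.IsRoot y → lo ≤ y ∧ y ≤ hi) ∧
    p.1 + j * p.2.natDegree = D ∧ p.1 < j

theorem logd {R : ℝ[X]} (hR : R.Splits) {y : ℝ} (hy : R.eval y ≠ 0) :
    y * (derivative R).eval y = R.eval y * (R.roots.map (fun z => y / (y - z))).sum := by
  rw [hR.eval_derivative_eq_eval_mul_sum hy]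
  have : (R.roots.map (fun z => y / (y - z))).sum = y * (R.roots.map (fun z => 1 / (y - z))).sum := by
    rw [← Multiset.sum_map_mul_left]
    congr 1
    apply Multiset.map_congr rfl
    intro z _
    ring
  rw [this]
  ring

theorem sum_nonneg' {lo hi y : ℝ} (hlo : lo ≤ 0) (hhi : 0 ≤ hi) (hy : y < lo ∨ hi < y)
    {z : ℝ} (h1 : lo ≤ z) (h2 : z ≤ hi) : 0 < y / (y - z) := by
  rcases hy with hy | hy
  · exact div_pos_of_neg_of_neg (by linarith) (by linarith)
  · exact div_pos (by linarith) (by linarith)

theorem sum_nonneg'' {R : ℝ[X]} {lo hi y : ℝ} (hlo : lo ≤ 0) (hhi : 0 ≤ hi)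
    (hy : y < lo ∨ hi < y) (hR0 : R ≠ 0) (h : ∀ y, R.IsRoot y → lo ≤ y ∧ y ≤ hi) :
    0 ≤ (R.roots.map (fun z => y / (y - z))).sum := by
  apply Multiset.sum_nonneg
  intro x hx
  rw [Multiset.mem_map] at hx
  obtain ⟨z, hz, rfl⟩ := hx
  have hz' := h z ((mem_roots hR0).1 hz)
  exact (sum_nonneg' hlo hhi hy hz'.1 hz'.2).le

theorem sum_pos'' {R : ℝ[X]} {lo hi y : ℝ} (hlo : lo ≤ 0) (hhi : 0 ≤ hi)
    (hy : y < lo ∨ hi < y) (hR : R.Splits) (hN : 0 < R.natDegree) (hR0 : R ≠ 0)
    (h : ∀ y, R.IsRoot y → lo ≤ y ∧ y ≤ hi) :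
    0 < (R.roots.map (fun z => y / (y - z))).sum := by
  have hc : R.roots.card = R.natDegree := splits_iff_card_roots.1 hR
  obtain ⟨z, hz⟩ : ∃ z, z ∈ R.roots := by
    apply Multiset.exists_mem_of_ne_zero
    intro h0
    rw [h0, Multiset.card_zero] at hc
    omega
  obtain ⟨s, hs⟩ := Multiset.exists_cons_of_mem hz
  rw [hs, Multiset.map_cons, Multiset.sum_cons]
  have hz' := h z ((mem_roots hR0).1 hz)
  have h1 := sum_nonneg' hlo hhi hy hz'.1 hz'.2
  have h2 : 0 ≤ (s.map (fun z => y / (y - z))).sum := by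
    apply Multiset.sum_nonneg
    intro x hx
    rw [Multiset.mem_map] at hx
    obtain ⟨w, hw, rfl⟩ := hx
    have hw' := h w ((mem_roots hR0).1 (by rw [hs]; exact Multiset.mem_cons_of_mem hw))
    exact (sum_nonneg' hlo hhi hy hw'.1 hw'.2).le
  linarith

theorem good_step {j : ℕ} (hj : 1 ≤ j) {lo hi : ℝ} (hlo : lo ≤ 0) (hhi : 0 ≤ hi) {D : ℕ}
    {p : ℕ × ℝ[X]} (hp : Good j lo hi (D + 1) p) : Good j lo hi D (step j p) := by
  obtain ⟨r, R⟩ := p
  obtain ⟨hS, hlc, hroot, hD, hr⟩ := hp
  simp only at hS hlc hroot hD hr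
  have hR0 : R ≠ 0 := by
    rintro rfl
    simp at hlc
  have hnr : ∀ y, (y < lo ∨ hi < y) → R.eval y ≠ 0 := by
    intro y hy h0
    have := hroot y h0
    rcases hy with hy | hy <;> linarith
  have hjr : (0 : ℝ) < j := by exact_mod_cast hj
  unfold step
  rcases Nat.eq_zero_or_pos r with rfl | hr0
  · rw [if_pos rfl]
    have hN : 0 < R.natDegree := by
      rcases Nat.eq_zero_or_pos R.natDegree with h0 | h0
      · rw [h0] at hD; omega
      · exact h0
    have hcoef : (derivative R).coeff (R.natDegree - 1) = R.leadingCoeff * R.natDegree := by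
      rw [coeff_derivative, Nat.sub_add_cancel hN]
      have : ((R.natDegree - 1 : ℕ) : ℝ) + 1 = R.natDegree := by
        rw [Nat.cast_sub hN]; push_cast; ring
      rw [this]; rfl
    have hNr : (0 : ℝ) < R.natDegree := by exact_mod_cast hN
    have hdeg : (derivative R).natDegree = R.natDegree - 1 := by
      apply le_antisymm (natDegree_derivative_le R)
      apply le_natDegree_of_ne_zero
      rw [hcoef]
      exact (mul_pos hlc hNr).ne'
    have hdeg2 : (C (j : ℝ) * derivative R).natDegree = R.natDegree - 1 := by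
      rw [natDegree_C_mul hjr.ne', hdeg]
    refine ⟨(splits_derivative hS).C_mul _, ?_, ?_, ?_, by simp only; omega⟩
    · simp only
      rw [leadingCoeff_mul, leadingCoeff_C]
      refine mul_pos hjr ?_
      unfold leadingCoeff
      rw [hdeg, hcoef]
      exact mul_pos hlc hNr
    · intro y hy
      by_contra hcon
      have hy' : y < lo ∨ hi < y := by
        by_contra h2
        push Not at h2
        exact hcon ⟨h2.1, h2.2⟩
      simp only [IsRoot.def, eval_mul, eval_C] at hy
      have h3 : (derivative R).eval y = 0 := by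
        rcases mul_eq_zero.1 hy with h | h
        · exact absurd h hjr.ne'
        · exact h
      have h4 := logd hS (hnr y hy')
      rw [h3, mul_zero] at h4
      have h5 := sum_pos'' hlo hhi hy' hS hN hR0 hroot
      rcases mul_eq_zero.1 h4.symm with h | h
      · exact hnr y hy' h
      · exact h5.ne' h
    · simp only
      rw [hdeg2]
      obtain ⟨N, hN'⟩ : ∃ N, R.natDegree = N + 1 := ⟨R.natDegree - 1, by omega⟩
      rw [hN'] at hD ⊢
      simp only [Nat.add_sub_cancel]
      rw [Nat.mul_add] at hD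
      omega
  · rw [if_neg (by simp only; omega)]
    have hrr : (0 : ℝ) < r := by exact_mod_cast hr0
    have hcoef : (C (r : ℝ) * R + C (j : ℝ) * X * derivative R).coeff R.natDegree =
        (r + j * R.natDegree) * R.leadingCoeff := by
      rw [coeff_add, coeff_C_mul, mul_assoc, coeff_C_mul]
      rcases Nat.eq_zero_or_pos R.natDegree with h0 | h0
      · rw [h0]
        have e1 : derivative R = 0 := by
          rw [natDegree_eq_zero] at h0
          obtain ⟨x, rfl⟩ := h0
          simp
        rw [e1]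
        unfold leadingCoeff
        rw [h0]
        simp
      · obtain ⟨N, hN'⟩ : ∃ N, R.natDegree = N + 1 := ⟨R.natDegree - 1, by omega⟩
        unfold leadingCoeff
        rw [hN', coeff_X_mul, coeff_derivative]
        push_cast
        ring
    have hpos : 0 < (r + j * R.natDegree) * R.leadingCoeff := by positivity
    have hle : (C (r : ℝ) * R + C (j : ℝ) * X * derivative R).natDegree ≤ R.natDegree := by
      apply natDegree_add_le_of_degree_le
      · exact natDegree_C_mul_le _ _
      · rw [mul_assoc]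
        refine (natDegree_C_mul_le _ _).trans ?_
        rcases Nat.eq_zero_or_pos R.natDegree with h0 | h0
        · have e1 : derivative R = 0 := by
            rw [natDegree_eq_zero] at h0
            obtain ⟨x, rfl⟩ := h0
            simp
          rw [e1]; simp
        · refine (natDegree_mul_le).trans ?_
          rw [natDegree_X]
          have := natDegree_derivative_le R
          omega
    have hdeg : (C (r : ℝ) * R + C (j : ℝ) * X * derivative R).natDegree = R.natDegree :=
      le_antisymm hle (le_natDegree_of_ne_zero (by rw [hcoef]; exact hpos.ne'))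
    refine ⟨splits_comb hS r j hr0 hj, ?_, ?_, ?_, by simp only; omega⟩
    · simp only
      unfold leadingCoeff
      rw [hdeg, hcoef]
      exact hpos
    · intro y hy
      by_contra hcon
      have hy' : y < lo ∨ hi < y := by
        by_contra h2
        push Not at h2
        exact hcon ⟨h2.1, h2.2⟩
      simp only [IsRoot.def, eval_add, eval_mul, eval_C, eval_X] at hy
      have h4 := logd hS (hnr y hy')
      have h5 := sum_nonneg'' hlo hhi hy' hR0 hroot
      have h6 : R.eval y * (r + j * (R.roots.map (fun z => y / (y - z))).sum) = 0 := by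
        rw [← hy, mul_assoc (j : ℝ) y, h4]
        ring
      rcases mul_eq_zero.1 h6 with h | h
      · exact hnr y hy' h
      · have : 0 < (r : ℝ) + j * (R.roots.map (fun z => y / (y - z))).sum := by positivity
        exact this.ne' h
    · simp only
      rw [hdeg]
      omega

theorem good_chain {j : ℕ} (hj : 1 ≤ j) {lo hi : ℝ} (hlo : lo ≤ 0) (hhi : 0 ≤ hi) {D : ℕ}
    {F : ℝ[X]} (hF : Good j lo hi D (0, F)) (m : ℕ) (hm : m ≤ D) :
    Good j lo hi (D - m) (chain j F m) := by
  induction m with
  | zero => simpa [chain_zero] using hF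
  | succ m ih =>
    rw [chain_succ]
    apply good_step hj hlo hhi
    have h1 := ih (by omega)
    have h2 : D - (m + 1) + 1 = D - m := by omega
    rwa [h2]

/-- The chain commutes with `F ↦ c F(sX)`. -/
theorem chain_comp (j : ℕ) (F : ℝ[X]) (c s : ℝ) (m : ℕ) :
    (chain j (C c * F.comp (C s * X)) m).1 = (chain j F m).1 ∧
      ∃ k : ℕ, (chain j (C c * F.comp (C s * X)) m).2 =
        C (c * s ^ k) * (chain j F m).2.comp (C s * X) := by
  induction m with
  | zero => exact ⟨rfl, 0, by simp [chain_zero]⟩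
  | succ m ih =>
    obtain ⟨h1, k, h2⟩ := ih
    rw [chain_succ, chain_succ]
    set p := chain j (C c * F.comp (C s * X)) m with hp
    set q := chain j F m with hq
    unfold step
    rw [h1]
    by_cases h0 : q.1 = 0
    · rw [if_pos h0, if_pos h0]
      refine ⟨rfl, k + 1, ?_⟩
      simp only
      rw [h2, derivative_C_mul, derivative_comp]
      simp only [derivative_mul, derivative_C, zero_mul, derivative_X, mul_one, zero_add, mul_comp,
        C_comp, C_mul, C_pow]
      ring
    · rw [if_neg h0, if_neg h0]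
      refine ⟨rfl, k, ?_⟩
      simp only
      rw [h2, derivative_C_mul, derivative_comp]
      simp only [derivative_mul, derivative_C, zero_mul, derivative_X, mul_one, zero_add, mul_comp,
        C_comp, C_mul, C_pow, add_comp, X_comp]
      ring

end Pool.Agent.KS6_23.SH
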