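import Pool.Agent.KS6_23.SH.Chain

/-!
# At a fixed remaining degree all roots are small
-/

set_option autoImplicit false

open Polynomial

namespace Pool.Agent.KS6_23.SH

theorem poly_pos {q : ℝ[X]} {A η τ x : ℝ} {K : ℕ} (hA : 0 < A) (hdeg : q.natDegree ≤ K)
    (hK : q.coeff K = A) (hη : 0 ≤ η) (hco : ∀ i < K, |q.coeff i| ≤ η * A) (hτ : 0 < τ)
    (hT : η * ∑ i ∈ Finset.range K, (1 / τ) ^ (K - i) < 1) (hx : τ ≤ x) : 0 < q.eval x := by
  have hx0 : 0 < x := by linarith
  rw [eval_eq_sum_range' (Nat.lt_succ_of_le hdeg), Finset.sum_range_succ, hK]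
  have h1 : |∑ i ∈ Finset.range K, q.coeff i * x ^ i| ≤
      A * x ^ K * (η * ∑ i ∈ Finset.range K, (1 / τ) ^ (K - i)) := by
    refine (Finset.abs_sum_le_sum_abs _ _).trans ?_
    rw [← mul_assoc, Finset.mul_sum]
    apply Finset.sum_le_sum
    intro i hi
    rw [Finset.mem_range] at hi
    have h2 := hco i hi
    rw [abs_mul, abs_of_pos (pow_pos hx0 i)]
    have h3 : x ^ i ≤ x ^ K * (1 / τ) ^ (K - i) := by
      have h4 : x ^ K = x ^ i * x ^ (K - i) := by
        rw [← pow_add]; congr 1; omega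
      rw [h4, mul_assoc, ← mul_pow]
      have h5 : 1 ≤ x * (1 / τ) := by
        rw [mul_one_div, le_div_iff₀ hτ]; linarith
      exact le_mul_of_one_le_right (pow_pos hx0 i).le (one_le_pow₀ h5)
    calc |q.coeff i| * x ^ i ≤ (η * A) * (x ^ K * (1 / τ) ^ (K - i)) :=
          mul_le_mul h2 h3 (pow_pos hx0 i).le (by positivity)
      _ = A * x ^ K * η * (1 / τ) ^ (K - i) := by ring
  have h2 : 0 < A * x ^ K := by positivity
  have h3 := neg_abs_le (∑ i ∈ Finset.range K, q.coeff i * x ^ i)
  nlinarith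

theorem desc_bound {j u K l k : ℕ} (hj : 2 ≤ j) (hl : l = j * k) (hk : 1 ≤ k) (hlK : l ≤ K)
    (hKu : K ≤ u) :
    (j * u - l).descFactorial (j * u - K) * (u ^ k * u) ≤
      (j * u).descFactorial (j * u - K) * K ^ K := by
  have hDu : 2 * u ≤ j * u := Nat.mul_le_mul_right u hj
  set D := j * u with hD
  have hl2 : 2 * k ≤ l := by rw [hl]; exact Nat.mul_le_mul_right k hj
  have e1 := Nat.descFactorial_mul_descFactorial (n := D) (k := l) (m := l + (D - K)) (by omega)
  have e2 := Nat.descFactorial_mul_descFactorial (n := D) (k := D - K) (m := l + (D - K)) (by omega)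
  rw [Nat.add_sub_cancel_left] at e1
  rw [Nat.add_sub_cancel, ← e1] at e2
  have e3 : D - (D - K) = K := by omega
  rw [e3] at e2
  have h1 : u ^ k * u ≤ D.descFactorial l := by
    calc u ^ k * u ≤ u ^ l := by
          rw [← pow_succ]
          exact Nat.pow_le_pow_right (by omega) (by omega)
      _ ≤ (D + 1 - l) ^ l := Nat.pow_le_pow_left (by omega) l
      _ ≤ D.descFactorial l := Nat.pow_sub_le_descFactorial D l
  have h2 : K.descFactorial l ≤ K ^ K := by
    calc K.descFactorial l ≤ K ^ l := Nat.descFactorial_le_pow K l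
      _ ≤ K ^ K := Nat.pow_le_pow_right (by omega) hlK
  calc (D - l).descFactorial (D - K) * (u ^ k * u)
      ≤ (D - l).descFactorial (D - K) * D.descFactorial l := Nat.mul_le_mul_left _ h1
    _ = K.descFactorial l * D.descFactorial (D - K) := e2.symm
    _ ≤ K ^ K * D.descFactorial (D - K) := Nat.mul_le_mul_right _ h2
    _ = _ := by ring

theorem no_large_root {j : ℕ} (hj : 2 ≤ j) {f : ℝ[X]} (hf : f.Monic) (hs : f.Splits)
    (hd : 0 < f.natDegree) {t : ℝ} (ht : 0 < t) (K : ℕ) :
    ∃ n : ℕ, 1 ≤ n ∧ K ≤ j * (n * f.natDegree) ∧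
      ∀ y, t ≤ y → ¬ (chain j (f ^ n) (j * (n * f.natDegree) - K)).2.IsRoot y := by
  -- a bound for the roots
  obtain ⟨ρ, hρ1, hρ⟩ : ∃ ρ : ℝ, 1 ≤ ρ ∧ ∀ z ∈ f.roots, ‖z‖ ≤ ρ := by
    refine ⟨1 + ∑ z ∈ f.roots.toFinset, ‖z‖, ?_, ?_⟩
    · have : 0 ≤ ∑ z ∈ f.roots.toFinset, ‖z‖ := Finset.sum_nonneg fun _ _ => norm_nonneg _
      linarith
    · intro z hz
      have := Finset.single_le_sum (f := fun z : ℝ => ‖z‖) (fun _ _ => norm_nonneg _)
        (Multiset.mem_toFinset.2 hz)
      linarith
  set τ : ℝ := t ^ ((1 : ℝ) / j) with hτ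
  have hτ0 : 0 < τ := Real.rpow_pos_of_pos ht _
  set T : ℝ := ∑ i ∈ Finset.range K, (1 / τ) ^ (K - i) with hT
  have hT0 : 0 ≤ T := Finset.sum_nonneg fun i _ => by positivity
  obtain ⟨n0, hn0⟩ := exists_nat_gt ((K : ℝ) ^ K * ρ ^ K * T)
  refine ⟨max (n0 + 1) K, by omega, ?_, ?_⟩
  · have h1 : K ≤ max (n0 + 1) K * f.natDegree :=
      (le_max_right _ _).trans (Nat.le_mul_of_pos_right _ hd)
    calc K ≤ 1 * (max (n0 + 1) K * f.natDegree) := by omega
      _ ≤ j * (max (n0 + 1) K * f.natDegree) := Nat.mul_le_mul_right _ (by omega)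
  intro y hy hroot
  set n := max (n0 + 1) K with hn
  set u := n * f.natDegree with hu
  have hKu : K ≤ u := (le_max_right _ _).trans (Nat.le_mul_of_pos_right _ hd)
  have hn0u : n0 + 1 ≤ u := (le_max_left _ _).trans (Nat.le_mul_of_pos_right _ hd)
  have hur : (0 : ℝ) < u := by
    have : 0 < u := by omega
    exact_mod_cast this
  have hDu : 1 * u ≤ j * u := Nat.mul_le_mul_right u (by omega)
  set D := j * u with hD
  have hy0 : 0 < y := by linarith
  have hjr : (0 : ℝ) < j := by exact_mod_cast (by omega : 0 < j)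
  -- the real point
  set x : ℝ := y ^ ((1 : ℝ) / j) with hx
  have hx0 : 0 < x := Real.rpow_pos_of_pos hy0 _
  have hxτ : τ ≤ x := Real.rpow_le_rpow ht.le hy (by positivity)
  have hxj : x ^ j = y := by
    rw [hx, ← Real.rpow_natCast, ← Real.rpow_mul hy0.le, one_div, inv_mul_cancel₀ hjr.ne',
      Real.rpow_one]
  have hev : (derivative^[D - K] (expand ℝ j (f ^ n))).eval x = 0 := by
    rw [← chain_eq (by omega : 1 ≤ j), eval_mul, expand_eval, hxj, hroot.eq_zero, mul_zero]
  have hmon : (f ^ n).Monic := hf.pow n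
  have hndeg : (f ^ n).natDegree = u := by rw [hf.natDegree_pow]
  have hgdeg : (expand ℝ j (f ^ n)).natDegree = D := by
    rw [natDegree_expand, hndeg, mul_comm]
  have hgco : (expand ℝ j (f ^ n)).coeff D = 1 := by
    have h1 : D = u * j := by rw [hD, mul_comm]
    rw [h1, coeff_expand_mul (by omega), ← hndeg]
    exact hmon
  set A : ℝ := (D.descFactorial (D - K) : ℝ) with hA
  have hA0 : 0 < A := by
    have : 0 < D.descFactorial (D - K) := Nat.descFactorial_pos.2 (Nat.sub_le _ _)
    rw [hA]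
    exact_mod_cast this
  have hpos : 0 < (derivative^[D - K] (expand ℝ j (f ^ n))).eval x := by
    refine poly_pos (A := A) (η := (K : ℝ) ^ K * ρ ^ K / u) (τ := τ) (K := K) hA0 ?_ ?_
      (by positivity) ?_ hτ0 ?_ hxτ
    · refine (natDegree_iterate_derivative _ _).trans ?_
      rw [hgdeg]; omega
    · rw [coeff_iterate_derivative]
      have h1 : K + (D - K) = D := by omega
      rw [h1, hgco, nsmul_eq_mul, mul_one]
    · intro i hi
      rw [coeff_iterate_derivative, nsmul_eq_mul, abs_mul, Nat.abs_cast]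
      by_cases hdvd : j ∣ (i + (D - K))
      · -- the nonzero coefficients
        obtain ⟨l, hl⟩ : ∃ l, l = K - i := ⟨_, rfl⟩
        have hil : i + (D - K) = D - l := by omega
        rw [hil] at hdvd ⊢
        have hjl : j ∣ l := by
          have h1 : j ∣ D := ⟨u, hD⟩
          have h2 := Nat.dvd_sub h1 hdvd
          have h3 : D - (D - l) = l := by omega
          rwa [h3] at h2
        obtain ⟨k, hk⟩ := hjl
        have hk1 : 1 ≤ k := by
          rcases Nat.eq_zero_or_pos k with h0 | h0
          · rw [h0, mul_zero] at hk; omega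
          · exact h0
        have hku : k ≤ u := by
          have : 1 * k ≤ j * k := Nat.mul_le_mul_right k (by omega)
          omega
        have e1 : D - l = (u - k) * j := by
          rw [hD, hk, Nat.sub_mul]
          rw [mul_comm u j, mul_comm k j]
        have e2 : (expand ℝ j (f ^ n)).coeff (D - l) = (f ^ n).coeff (u - k) := by
          rw [e1, coeff_expand_mul (by omega)]
        have e3 : |(f ^ n).coeff (u - k)| ≤ ρ ^ k * (u : ℝ) ^ k := by
          have h1 := coeff_le_of_roots_le (f := RingHom.id ℝ) (p := f ^ n) (B := ρ) (u - k) hmon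
            (by rw [Polynomial.map_id]; exact hs.pow n)
            (by
              intro z hz
              rw [Polynomial.map_id] at hz
              rw [roots_pow] at hz
              exact hρ z (Multiset.mem_of_mem_nsmul hz))
          rw [Polynomial.map_id, hndeg] at h1
          have h2 : u - (u - k) = k := by omega
          rw [h2, Real.norm_eq_abs] at h1
          refine h1.trans ?_
          apply mul_le_mul_of_nonneg_left _ (by positivity)
          rw [Nat.choose_symm hku]
          exact_mod_cast Nat.choose_le_pow u k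
        have e4 := desc_bound hj hk hk1 (by omega : l ≤ K) hKu
        rw [← hD] at e4
        have e5 : (((D - l).descFactorial (D - K) : ℕ) : ℝ) * ((u : ℝ) ^ k * u) ≤ A * (K : ℝ) ^ K := by
          rw [hA]
          exact_mod_cast e4
        have hkK : k ≤ K := by
          have : 1 * k ≤ j * k := Nat.mul_le_mul_right k (by omega)
          omega
        rw [e2]
        rw [div_mul_eq_mul_div, le_div_iff₀ hur]
        calc (((D - l).descFactorial (D - K) : ℕ) : ℝ) * |(f ^ n).coeff (u - k)| * u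
            ≤ (((D - l).descFactorial (D - K) : ℕ) : ℝ) * (ρ ^ k * (u : ℝ) ^ k) * u := by
              gcongr
          _ = (((D - l).descFactorial (D - K) : ℕ) : ℝ) * ((u : ℝ) ^ k * u) * ρ ^ k := by ring
          _ ≤ A * (K : ℝ) ^ K * ρ ^ k := by gcongr
          _ ≤ A * (K : ℝ) ^ K * ρ ^ K := by gcongr
          _ = (K : ℝ) ^ K * ρ ^ K * A := by ring
      · rw [coeff_expand (by omega), if_neg hdvd, abs_zero, mul_zero]
        positivity
    · rw [← hT, div_mul_eq_mul_div, div_lt_one hur]
      have : (n0 : ℝ) + 1 ≤ u := by exact_mod_cast hn0u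
      linarith
  exact hpos.ne' hev

end Pool.Agent.KS6_23.SH
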