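import Pool.Agent.KS6_23.SH.Small
import Pool.Agent.KS6_23.SH.End

/-!
# The roots of the chains are dense between `0` and the extreme roots
-/

set_option autoImplicit false

open Polynomial

namespace Pool.Agent.KS6_23.SH

theorem good_init {j : ℕ} (hj : 1 ≤ j) {f : ℝ[X]} (hf : f.Monic) (hs : f.Splits) {lo hi : ℝ}
    (h : ∀ z, f.IsRoot z → lo ≤ z ∧ z ≤ hi) (n : ℕ) :
    Good j lo hi (j * (n * f.natDegree)) (0, f ^ n) := by
  refine ⟨hs.pow n, ?_, ?_, ?_, hj⟩
  · simp only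
    rw [(hf.pow n).leadingCoeff]; exact one_pos
  · intro y hy
    apply h
    rw [IsRoot.def, eval_pow] at hy
    by_contra hne
    exact pow_ne_zero n hne hy
  · simp only
    rw [hf.natDegree_pow, zero_add]

theorem exists_bound {f : ℝ[X]} (hf : f ≠ 0) :
    ∃ L : ℝ, 0 < L ∧ ∀ z, f.IsRoot z → -L ≤ z ∧ z ≤ L := by
  refine ⟨1 + ∑ z ∈ f.roots.toFinset, |z|, ?_, ?_⟩
  · have : 0 ≤ ∑ z ∈ f.roots.toFinset, |z| := Finset.sum_nonneg fun _ _ => abs_nonneg _
    linarith
  · intro z hz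
    have := Finset.single_le_sum (f := fun z : ℝ => |z|) (fun _ _ => abs_nonneg _)
      (Multiset.mem_toFinset.2 ((mem_roots hf).2 hz))
    have h2 : |z| ≤ ∑ z ∈ f.roots.toFinset, |z| := this
    have h3 := abs_le.1 h2
    constructor <;> linarith [h3.1, h3.2]

theorem dense_pos {j : ℕ} (hj : 2 ≤ j) {f : ℝ[X]} (hf : f.Monic) (hs : f.Splits) {M t δ : ℝ}
    (hM : f.IsRoot M) (ht : 0 < t) (htM : t ≤ M) (hδ : 0 < δ) :
    ∃ n m : ℕ, 1 ≤ n ∧ m ≤ j * (n * f.natDegree) ∧
      ∃ z, |z - t| ≤ δ ∧ (chain j (f ^ n) m).2.IsRoot z := by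
  have hd : 0 < f.natDegree := by
    rcases Nat.eq_zero_or_pos f.natDegree with h0 | h0
    · exfalso
      rw [eq_one_of_monic_natDegree_zero hf h0] at hM
      simp at hM
    · exact h0
  obtain ⟨L, hL0, hL⟩ := exists_bound hf.ne_zero
  set δ' := min δ (t / 2) with hδ'
  have hδ'0 : 0 < δ' := lt_min hδ (by linarith)
  have hδ't : δ' < t := (min_le_right _ _).trans_lt (by linarith)
  obtain ⟨N0, hN0⟩ := exists_nat_ge ((2 * L + δ') / δ')
  rw [div_le_iff₀ hδ'0] at hN0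
  obtain ⟨n, hn, hK, hno⟩ := no_large_root hj hf hs hd ht (j * (N0 + 1))
  set D := j * (n * f.natDegree) with hD
  set K := j * (N0 + 1) with hKdef
  have hgood : ∀ m, m ≤ D → Good j (-L) L (D - m) (chain j (f ^ n) m) := fun m hm =>
    good_chain (by omega) (by linarith) hL0.le (good_init (by omega) hf hs hL n) m hm
  -- the last stage with a root `≥ t`
  obtain ⟨m, hm, ⟨z0, hz0, hz0'⟩, hm2⟩ : ∃ m, m < D - K ∧
      (∃ z, t ≤ z ∧ (chain j (f ^ n) m).2.IsRoot z) ∧
      ¬ ∃ z, t ≤ z ∧ (chain j (f ^ n) (m + 1)).2.IsRoot z := by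
    by_contra hcon
    push Not at hcon
    have hall : ∀ m, m ≤ D - K → ∃ z, t ≤ z ∧ (chain j (f ^ n) m).2.IsRoot z := by
      intro m
      induction m with
      | zero =>
        intro _
        refine ⟨M, htM, ?_⟩
        rw [chain_zero, IsRoot.def, eval_pow, hM.eq_zero, zero_pow (by omega)]
      | succ m ih =>
        intro hm
        exact hcon m (by omega) (ih (by omega))
    obtain ⟨z, hz, hz'⟩ := hall (D - K) le_rfl
    exact hno z hz hz'
  obtain ⟨g1, g2, g3, g4, g5⟩ := hgood m (by omega)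
  have hNdeg : N0 ≤ (chain j (f ^ n) m).2.natDegree := by
    by_contra hlt
    push Not at hlt
    have h1 : j * ((chain j (f ^ n) m).2.natDegree + 1) ≤ j * N0 := Nat.mul_le_mul_left j hlt
    rw [Nat.mul_add, mul_one] at h1
    have h2 : K = j * N0 + j := by rw [hKdef]; ring
    omega
  have hN : 2 * L + δ' ≤ δ' * (chain j (f ^ n) m).2.natDegree := by
    have : (N0 : ℝ) ≤ (chain j (f ^ n) m).2.natDegree := by exact_mod_cast hNdeg
    nlinarith
  rcases step_root g1 g2 g3 hδ'0 hδ't ⟨z0, hz0, hz0'⟩ hN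
    (G := (step j (chain j (f ^ n) m)).2) (step_form (by omega) _) with ⟨z, hz, hz'⟩ | ⟨z, h1, h2, h3⟩
  · exact absurd ⟨z, hz, by rw [chain_succ]; exact hz'⟩ hm2
  · refine ⟨n, m + 1, hn, by omega, z, ?_, by rw [chain_succ]; exact h3⟩
    rw [abs_le]
    have : δ' ≤ δ := min_le_left _ _
    constructor <;> linarith

theorem dense_neg {j : ℕ} (hj : 2 ≤ j) {f : ℝ[X]} (hf : f.Monic) (hs : f.Splits) {M t δ : ℝ}
    (hM : f.IsRoot M) (ht : t < 0) (htM : M ≤ t) (hδ : 0 < δ) :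
    ∃ n m : ℕ, 1 ≤ n ∧ m ≤ j * (n * f.natDegree) ∧
      ∃ z, |z - t| ≤ δ ∧ (chain j (f ^ n) m).2.IsRoot z := by
  set e := f.natDegree with he
  have hX : (C (-1 : ℝ) * X).natDegree = 1 := natDegree_C_mul_X _ (by norm_num)
  set g : ℝ[X] := C ((-1) ^ e) * f.comp (C (-1) * X) with hg
  have hsq : ((-1 : ℝ) ^ e) * ((-1) ^ e) = 1 := by
    rw [← mul_pow]; norm_num
  have hgm : g.Monic := by
    unfold Monic
    rw [hg, leadingCoeff_mul, leadingCoeff_C, leadingCoeff_comp (by rw [hX]; norm_num),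
      hf.leadingCoeff, leadingCoeff_C_mul_X, one_mul, ← he, hsq]
  have hge : ∀ x, g.eval x = (-1) ^ e * f.eval (-x) := by
    intro x
    rw [hg, eval_mul, eval_C, eval_comp, eval_mul, eval_C, eval_X]
    ring_nf
  have hgd : g.natDegree = e := by
    rw [hg, natDegree_C_mul (pow_ne_zero _ (by norm_num)), natDegree_comp, hX, mul_one]
  have hgs : g.Splits := by
    rw [hg]
    refine Splits.C_mul ?_ _
    exact hs.comp_of_natDegree_le_one (by rw [hX])
  obtain ⟨n, m, h1, h2, z, h3, h4⟩ := dense_pos (t := -t) (M := -M) hj hgm hgs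
    (by rw [IsRoot.def, hge, neg_neg, hM.eq_zero, mul_zero]) (by linarith) (by linarith) hδ
  rw [hgd] at h2
  refine ⟨n, m, h1, h2, -z, ?_, ?_⟩
  · have : -z - t = -(z - -t) := by ring
    rw [this, abs_neg]
    exact h3
  · have h5 : g ^ n = C (((-1) ^ e) ^ n) * (f ^ n).comp (C (-1) * X) := by
      rw [hg, mul_pow, ← C_pow, pow_comp]
    rw [h5] at h4
    obtain ⟨-, k, h6⟩ := chain_comp j (f ^ n) (((-1) ^ e) ^ n) (-1) m
    rw [h6, IsRoot.def, eval_mul, eval_C, eval_comp, eval_mul, eval_C, eval_X] at h4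
    rcases mul_eq_zero.1 h4 with h | h
    · exfalso
      refine mul_ne_zero (pow_ne_zero _ (pow_ne_zero _ (by norm_num)))
        (pow_ne_zero _ (by norm_num)) h
    · rw [IsRoot.def, ← h]
      congr 1
      ring

end Pool.Agent.KS6_23.SH
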