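import Pool.Agent.KS6_23.SH.Dense

/-!
# The shadow of `f(X^j)` for real-rooted `f`
-/

set_option autoImplicit false

open Polynomial Complex

namespace Pool.Agent.KS6_23.SH

/-- The polynomial `f(X^j)` over the complex numbers. -/
noncomputable def lift (j : ℕ) (f : ℝ[X]) : ℂ[X] := (expand ℝ j f).map (algebraMap ℝ ℂ)

theorem natDegree_lift (j : ℕ) (f : ℝ[X]) : (lift j f).natDegree = f.natDegree * j := by
  unfold lift
  rw [natDegree_map, natDegree_expand]

theorem Q_lift {j : ℕ} (hj : 1 ≤ j) (f : ℝ[X]) (n m : ℕ) :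
    Q (lift j f) n m =
      (X ^ (chain j (f ^ n) m).1 * expand ℝ j (chain j (f ^ n) m).2).map (algebraMap ℝ ℂ) := by
  unfold Q lift
  rw [chain_eq hj, ← Polynomial.map_pow, ← map_pow, iterate_derivative_map]

theorem eval_Q {j : ℕ} (hj : 1 ≤ j) (f : ℝ[X]) (n m : ℕ) (z : ℂ) :
    (Q (lift j f) n m).eval z = z ^ (chain j (f ^ n) m).1 *
      ((chain j (f ^ n) m).2.map (algebraMap ℝ ℂ)).eval (z ^ j) := by
  rw [Q_lift hj, Polynomial.map_mul, Polynomial.map_pow, map_X, map_expand, eval_mul, eval_pow,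
    eval_X, expand_eval]

theorem eval_map_real (R : ℝ[X]) (y : ℝ) :
    (R.map (algebraMap ℝ ℂ)).eval (y : ℂ) = ((R.eval y : ℝ) : ℂ) := by
  rw [eval_map, ← coe_algebraMap, eval₂_at_apply]

theorem mem_zeroSet {j : ℕ} (hj : 1 ≤ j) {f : ℝ[X]} {n m : ℕ} (hn : 1 ≤ n)
    (hm : m ≤ j * (n * f.natDegree)) {y : ℝ} (hy : (chain j (f ^ n) m).2.IsRoot y) {z : ℂ}
    (hz : z ^ j = y) : z ∈ zeroSet (lift j f) := by
  refine ⟨n, m, hn, ?_, ?_⟩
  · rw [natDegree_lift]
    calc m ≤ j * (n * f.natDegree) := hm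
      _ = n * (f.natDegree * j) := by ring
  · rw [IsRoot.def, eval_Q hj, hz, eval_map_real, hy.eq_zero, ofReal_zero, mul_zero]

theorem zero_mem {j : ℕ} (hj : 2 ≤ j) {f : ℝ[X]} (hd : 0 < f.natDegree) :
    (0 : ℂ) ∈ zeroSet (lift j f) := by
  refine ⟨1, 1, le_rfl, ?_, ?_⟩
  · rw [natDegree_lift]
    have : 1 * 1 ≤ f.natDegree * j := Nat.mul_le_mul hd (by omega)
    omega
  · unfold Q lift
    rw [pow_one, Function.iterate_one, IsRoot.def, ← coeff_zero_eq_eval_zero, coeff_derivative,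
      coeff_map, coeff_expand (by omega), if_neg (by
        intro h
        have := Nat.le_of_dvd (by norm_num) h
        omega)]
    simp

theorem zeroSet_sub {j : ℕ} (hj : 2 ≤ j) {f : ℝ[X]} (hf : f.Monic) (hs : f.Splits) {lo hi : ℝ}
    (hlo : lo ≤ 0) (hhi : 0 ≤ hi) (h : ∀ z, f.IsRoot z → lo ≤ z ∧ z ≤ hi) :
    zeroSet (lift j f) ⊆ {z | (z ^ j).im = 0 ∧ lo ≤ (z ^ j).re ∧ (z ^ j).re ≤ hi} := by
  rintro z ⟨n, m, hn, hm, hz⟩
  have hm' : m ≤ j * (n * f.natDegree) := by
    rw [natDegree_lift] at hm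
    calc m ≤ n * (f.natDegree * j) := hm
      _ = j * (n * f.natDegree) := by ring
  obtain ⟨g1, g2, g3, g4, g5⟩ := good_chain (by omega) hlo hhi
    (good_init (j := j) (by omega) hf hs h n) m hm'
  set R := (chain j (f ^ n) m).2 with hR
  have hR0 : R ≠ 0 := by
    intro h0
    rw [h0] at g2
    simp at g2
  rw [IsRoot.def, eval_Q (by omega), mul_eq_zero] at hz
  rcases hz with hz | hz
  · have h0 : z = 0 := by
      by_contra h
      exact pow_ne_zero _ h hz
    simp only [Set.mem_ofPred_eq]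
    rw [h0, zero_pow (by omega)]
    exact ⟨rfl, hlo, hhi⟩
  · have h1 : (R.map (algebraMap ℝ ℂ)).IsRoot (z ^ j) := hz
    obtain ⟨x, hx⟩ := Splits.mem_range_of_isRoot g1 hR0 h1
    have h2 : R.IsRoot x := by
      rw [← hx, IsRoot.def] at h1
      have h3 : (R.map (algebraMap ℝ ℂ)).eval (x : ℂ) = 0 := h1
      rw [eval_map_real] at h3
      exact_mod_cast h3
    have h3 := g3 x h2
    simp only [Set.mem_ofPred_eq]
    rw [← hx]
    refine ⟨by simp, ?_, ?_⟩
    · simpa using h3.1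
    · simpa using h3.2

theorem isClosed_star (j : ℕ) (lo hi : ℝ) :
    IsClosed {z : ℂ | (z ^ j).im = 0 ∧ lo ≤ (z ^ j).re ∧ (z ^ j).re ≤ hi} := by
  have h1 : IsClosed {z : ℂ | (z ^ j).im = 0} := isClosed_eq (by fun_prop) continuous_const
  have h2 : IsClosed {z : ℂ | lo ≤ (z ^ j).re} := isClosed_le continuous_const (by fun_prop)
  have h3 : IsClosed {z : ℂ | (z ^ j).re ≤ hi} := isClosed_le (by fun_prop) continuous_const
  exact h1.inter (h2.inter h3)

/-- If the roots of the chains come arbitrarily close to `t` then the points with `z ^ j = t` are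
in the shadow. -/
theorem mem_shadow {j : ℕ} (hj : 1 ≤ j) {f : ℝ[X]} {t : ℝ} (ht : t ≠ 0)
    (h : ∀ δ : ℝ, 0 < δ → ∃ n m : ℕ, 1 ≤ n ∧ m ≤ j * (n * f.natDegree) ∧
      ∃ z, |z - t| ≤ δ ∧ (chain j (f ^ n) m).2.IsRoot z) {z : ℂ} (hz : z ^ j = t) :
    z ∈ shadow (lift j f) := by
  unfold shadow
  rw [Metric.mem_closure_iff]
  intro ε hε
  set g : ℝ → ℂ := fun s => z * (((s / t) ^ ((1 : ℝ) / j) : ℝ) : ℂ) with hg
  have hjr : (0 : ℝ) < j := by exact_mod_cast hj
  have hcont : ContinuousAt g t := by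
    apply ContinuousAt.mul continuousAt_const
    apply Complex.continuous_ofReal.continuousAt.comp
    apply ContinuousAt.rpow_const (by fun_prop)
    right
    positivity
  have hgt : g t = z := by
    rw [hg]
    simp only
    rw [div_self ht, Real.one_rpow, ofReal_one, mul_one]
  obtain ⟨δ, hδ, hδ2⟩ := Metric.continuousAt_iff.1 hcont ε hε
  obtain ⟨n, m, hn, hm, y, hy, hy2⟩ := h (min (δ / 2) (|t| / 2))
    (lt_min (by linarith) (by have := abs_pos.2 ht; linarith))
  have hy1 : |y - t| < δ := lt_of_le_of_lt hy ((min_le_left _ _).trans_lt (by linarith))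
  have hy3 : |y - t| ≤ |t| / 2 := hy.trans (min_le_right _ _)
  have hyt : 0 < y / t := by
    have ht' := abs_pos.2 ht
    rw [div_pos_iff]
    rcases lt_or_gt_of_ne ht with h1 | h1
    · right
      rw [abs_of_neg h1] at hy3
      have := (abs_le.1 hy3).2
      exact ⟨by linarith, h1⟩
    · left
      rw [abs_of_pos h1] at hy3
      have := (abs_le.1 hy3).1
      exact ⟨by linarith, h1⟩
  refine ⟨g y, mem_zeroSet hj hn hm hy2 ?_, ?_⟩
  · rw [hg]
    simp only
    rw [mul_pow, hz, ← ofReal_pow, ← Real.rpow_natCast, ← Real.rpow_mul hyt.le, one_div,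
      inv_mul_cancel₀ hjr.ne', Real.rpow_one, ← ofReal_mul]
    congr 1
    field_simp
  · have h1 := hδ2 (x := y) (by rw [Real.dist_eq]; exact hy1)
    rw [hgt] at h1
    rw [dist_comm]
    exact h1

theorem isRoot_lift {j : ℕ} {f : ℝ[X]} (hf : f ≠ 0) (hs : f.Splits) {w : ℂ} :
    (lift j f).IsRoot w ↔ ∃ M : ℝ, f.IsRoot M ∧ w ^ j = M := by
  unfold lift
  rw [map_expand, IsRoot.def, expand_eval]
  constructor
  · intro h
    obtain ⟨x, hx⟩ := Splits.mem_range_of_isRoot hs hf h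
    refine ⟨x, ?_, hx.symm⟩
    have h3 : (f.map (algebraMap ℝ ℂ)).eval (x : ℂ) = 0 := by
      rw [show (x : ℂ) = w ^ j from hx]; exact h
    rw [eval_map_real] at h3
    exact_mod_cast h3
  · rintro ⟨M, hM, hw⟩
    rw [hw, eval_map_real, hM.eq_zero, ofReal_zero]

/-- A point `z` with `z ^ j = y`, `0 < M / y`, `1 ≤ M / y` is on a segment from `0` to a root. -/
theorem mem_segment {j : ℕ} (hj : 1 ≤ j) {z : ℂ} {y M : ℝ} (hz : z ^ j = y) (hy : y ≠ 0)
    (hM : 1 ≤ M / y) : ∃ w : ℂ, w ^ j = M ∧ z ∈ segment ℝ (0 : ℂ) w := by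
  have hjr : (0 : ℝ) < j := by exact_mod_cast hj
  have h0 : 0 < M / y := by linarith
  set c : ℝ := (M / y) ^ ((1 : ℝ) / j) with hc
  have hc1 : 1 ≤ c := Real.one_le_rpow hM (by positivity)
  have hc0 : 0 < c := by linarith
  have hcj : c ^ j = M / y := by
    rw [hc, ← Real.rpow_natCast, ← Real.rpow_mul h0.le, one_div, inv_mul_cancel₀ hjr.ne',
      Real.rpow_one]
  refine ⟨z * c, ?_, ?_⟩
  · rw [mul_pow, hz, ← ofReal_pow, hcj, ← ofReal_mul]
    congr 1
    field_simp
  · rw [segment_eq_image']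
    refine ⟨c⁻¹, ⟨by positivity, inv_le_one_of_one_le₀ hc1⟩, ?_⟩
    simp only [sub_zero, zero_add, real_smul, ofReal_inv]
    have : (c : ℂ) ≠ 0 := by exact_mod_cast hc0.ne'
    field_simp

/-- **The shadow of `f(X^j)`, `j ≥ 2`, for a real-rooted polynomial `f`, is the union of the
segments from the centre `0` to the roots.** -/
theorem shadow_eq {j : ℕ} (hj : 2 ≤ j) {f : ℝ[X]} (hf : f.Monic) (hs : f.Splits)
    (hd : 0 < f.natDegree) :
    shadow (lift j f) = ⋃ w ∈ {w : ℂ | (lift j f).IsRoot w}, segment ℝ (0 : ℂ) w := by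
  classical
  have hf0 := hf.ne_zero
  have hne : f.roots.toFinset.Nonempty := by
    have hc : f.roots.card = f.natDegree := splits_iff_card_roots.1 hs
    obtain ⟨z, hz⟩ : ∃ z, z ∈ f.roots := by
      apply Multiset.exists_mem_of_ne_zero
      intro h0
      rw [h0, Multiset.card_zero] at hc
      omega
    exact ⟨z, Multiset.mem_toFinset.2 hz⟩
  obtain ⟨M, hM, hMmax⟩ := f.roots.toFinset.exists_max_image id hne
  obtain ⟨m, hm, hmmin⟩ := f.roots.toFinset.exists_min_image id hne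
  rw [Multiset.mem_toFinset, mem_roots hf0] at hM hm
  have hMmax' : ∀ z, f.IsRoot z → z ≤ M := fun z hz =>
    hMmax z (by rw [Multiset.mem_toFinset, mem_roots hf0]; exact hz)
  have hmmin' : ∀ z, f.IsRoot z → m ≤ z := fun z hz =>
    hmmin z (by rw [Multiset.mem_toFinset, mem_roots hf0]; exact hz)
  apply Set.Subset.antisymm
  · -- the shadow is contained in the star
    have h1 : shadow (lift j f) ⊆
        {z | (z ^ j).im = 0 ∧ min m 0 ≤ (z ^ j).re ∧ (z ^ j).re ≤ max M 0} :=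
      closure_minimal (zeroSet_sub hj hf hs (min_le_right _ _) (le_max_right _ _)
        fun z hz => ⟨(min_le_left _ _).trans (hmmin' z hz), (hMmax' z hz).trans (le_max_left _ _)⟩)
        (isClosed_star j _ _)
    intro z hz
    obtain ⟨h2, h3, h4⟩ := h1 hz
    set y := (z ^ j).re with hy
    have hzy : z ^ j = (y : ℂ) := by
      apply Complex.ext
      · rw [ofReal_re]
      · rw [ofReal_im, h2]
    simp only [Set.mem_iUnion, Set.mem_ofPred_eq, exists_prop]
    rcases lt_trichotomy y 0 with h5 | h5 | h5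
    · have h6 : m ≤ y := by
        rcases le_total m 0 with h7 | h7
        · rwa [min_eq_left h7] at h3
        · rw [min_eq_right h7] at h3; linarith
      obtain ⟨w, hw1, hw2⟩ := mem_segment (by omega) hzy h5.ne (M := m)
        (by rw [one_le_div_of_neg h5]; exact h6)
      exact ⟨w, (isRoot_lift hf0 hs).2 ⟨m, hm, hw1⟩, hw2⟩
    · have h6 : z = 0 := by
        rw [h5, ofReal_zero] at hzy
        by_contra h
        exact pow_ne_zero _ h hzy
      obtain ⟨w, hw⟩ := IsAlgClosed.exists_pow_nat_eq (M : ℂ) (by omega : 0 < j)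
      exact ⟨w, (isRoot_lift hf0 hs).2 ⟨M, hM, hw⟩, by rw [h6]; exact left_mem_segment ℝ 0 w⟩
    · have h6 : y ≤ M := by
        rcases le_total M 0 with h7 | h7
        · rw [max_eq_right h7] at h4; linarith
        · rwa [max_eq_left h7] at h4
      obtain ⟨w, hw1, hw2⟩ := mem_segment (by omega) hzy h5.ne' (M := M)
        (by rw [one_le_div h5]; exact h6)
      exact ⟨w, (isRoot_lift hf0 hs).2 ⟨M, hM, hw1⟩, hw2⟩
  · -- the star is contained in the shadow
    intro z hz
    simp only [Set.mem_iUnion, Set.mem_ofPred_eq, exists_prop] at hz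
    obtain ⟨w, hw, hz⟩ := hz
    obtain ⟨M', hM', hwM⟩ := (isRoot_lift hf0 hs).1 hw
    rw [segment_eq_image'] at hz
    obtain ⟨s, ⟨hs0, hs1⟩, rfl⟩ := hz
    simp only [sub_zero, zero_add, real_smul]
    rcases eq_or_lt_of_le hs0 with h1 | h1
    · rw [← h1, ofReal_zero, zero_mul]
      exact subset_closure (zero_mem hj hd)
    have hzj : ((s : ℂ) * w) ^ j = ((s ^ j * M' : ℝ) : ℂ) := by
      rw [mul_pow, hwM]; push_cast; ring
    have hsj : 0 < s ^ j := by positivity
    have hsj1 : s ^ j ≤ 1 := pow_le_one₀ hs0 hs1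
    rcases lt_trichotomy M' 0 with h5 | h5 | h5
    · have ht : s ^ j * M' < 0 := mul_neg_of_pos_of_neg hsj h5
      refine mem_shadow (by omega) ht.ne (fun δ hδ => dense_neg hj hf hs hM' ht ?_ hδ) hzj
      nlinarith
    · have : w = 0 := by
        rw [h5, ofReal_zero] at hwM
        by_contra h
        exact pow_ne_zero _ h hwM
      rw [this, mul_zero]
      exact subset_closure (zero_mem hj hd)
    · have ht : 0 < s ^ j * M' := mul_pos hsj h5
      refine mem_shadow (by omega) ht.ne' (fun δ hδ => dense_pos hj hf hs hM' ht ?_ hδ) hzj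
      nlinarith

end Pool.Agent.KS6_23.SH
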