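import Pool.Agent.KS6_23.SH.Chain

/-!
# One step moves the largest root only a little
-/

set_option autoImplicit false

open Polynomial

namespace Pool.Agent.KS6_23.SH

theorem prod_bound (s : Multiset ℝ) {x L : ℝ} (h : ∀ z ∈ s, -L ≤ z ∧ z ≤ x) :
    0 ≤ ((s.map (fun z => X - C z)).prod).eval x ∧
    0 ≤ (derivative ((s.map (fun z => X - C z)).prod)).eval x ∧
    (s.card : ℝ) * ((s.map (fun z => X - C z)).prod).eval x ≤
      (derivative ((s.map (fun z => X - C z)).prod)).eval x * (x + L) := by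
  induction s using Multiset.induction_on with
  | empty => simp
  | cons z s ih =>
    obtain ⟨i1, i2, i3⟩ := ih (fun w hw => h w (Multiset.mem_cons_of_mem hw))
    obtain ⟨hz1, hz2⟩ := h z (Multiset.mem_cons_self z s)
    rw [Multiset.map_cons, Multiset.prod_cons, Multiset.card_cons]
    set U := (s.map (fun z => X - C z)).prod with hU
    have e1 : ((X - C z) * U).eval x = (x - z) * U.eval x := by simp
    have e2 : (derivative ((X - C z) * U)).eval x = U.eval x + (x - z) * (derivative U).eval x := by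
      simp [derivative_mul]
    rw [e1, e2]
    have h0 : 0 ≤ x - z := by linarith
    refine ⟨mul_nonneg h0 i1, add_nonneg i1 (mul_nonneg h0 i2), ?_⟩
    push_cast
    nlinarith [mul_le_mul_of_nonneg_left i3 h0, mul_nonneg i1 (by linarith : 0 ≤ z + L)]

/-- The same for a polynomial which splits and has positive leading coefficient. -/
theorem split_bound {S : ℝ[X]} (hS : S.Splits) (hlc : 0 < S.leadingCoeff) {x L : ℝ}
    (h : ∀ z ∈ S.roots, -L ≤ z ∧ z ≤ x) :
    0 ≤ S.eval x ∧ 0 ≤ (derivative S).eval x ∧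
    (S.natDegree : ℝ) * S.eval x ≤ (derivative S).eval x * (x + L) := by
  obtain ⟨h1, h2, h3⟩ := prod_bound S.roots h
  have hc : S.roots.card = S.natDegree := splits_iff_card_roots.1 hS
  have e := hS.eq_prod_roots
  have e1 : S.eval x = S.leadingCoeff * ((S.roots.map (fun z => X - C z)).prod).eval x := by
    conv_lhs => rw [e]
    rw [eval_mul, eval_C]
  have e2 : (derivative S).eval x =
      S.leadingCoeff * (derivative ((S.roots.map (fun z => X - C z)).prod)).eval x := by
    conv_lhs => rw [e]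
    rw [derivative_C_mul, eval_mul, eval_C]
  rw [hc] at h3
  rw [e1, e2]
  refine ⟨mul_nonneg hlc.le h1, mul_nonneg hlc.le h2, ?_⟩
  calc (S.natDegree : ℝ) * (S.leadingCoeff * ((S.roots.map (fun z => X - C z)).prod).eval x)
      = S.leadingCoeff * (S.natDegree * ((S.roots.map (fun z => X - C z)).prod).eval x) := by ring
    _ ≤ S.leadingCoeff * ((derivative ((S.roots.map (fun z => X - C z)).prod)).eval x * (x + L)) :=
        mul_le_mul_of_nonneg_left h3 hlc.le
    _ = _ := by ring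

/-- **One step moves the largest root only a little.** -/
theorem step_root {R : ℝ[X]} (hR : R.Splits) (hlc : 0 < R.leadingCoeff) {L : ℝ}
    (hL : ∀ z, R.IsRoot z → -L ≤ z ∧ z ≤ L) {t δ : ℝ} (hδ : 0 < δ) (hδt : δ < t)
    (h0 : ∃ z, t ≤ z ∧ R.IsRoot z) (hN : 2 * L + δ ≤ δ * R.natDegree) {G : ℝ[X]}
    (hG : ∀ y, 0 < y → ∃ α β : ℝ, 0 ≤ α ∧ 0 < β ∧
      G.eval y = α * R.eval y + β * (derivative R).eval y) :
    (∃ z, t ≤ z ∧ G.IsRoot z) ∨ ∃ z, t - δ ≤ z ∧ z < t ∧ G.IsRoot z := by
  classical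
  have hR0 : R ≠ 0 := by
    rintro rfl
    simp at hlc
  -- the largest root
  obtain ⟨y1, hy1, hmax⟩ : ∃ y1, R.IsRoot y1 ∧ ∀ z, R.IsRoot z → z ≤ y1 := by
    obtain ⟨z, hz, hz'⟩ := h0
    have hne : R.roots.toFinset.Nonempty := ⟨z, by rw [Multiset.mem_toFinset, mem_roots hR0]; exact hz'⟩
    obtain ⟨y1, h1, h2⟩ := R.roots.toFinset.exists_max_image id hne
    rw [Multiset.mem_toFinset, mem_roots hR0] at h1
    refine ⟨y1, h1, fun z hz => h2 z ?_⟩
    rw [Multiset.mem_toFinset, mem_roots hR0]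
    exact hz
  have hty : t ≤ y1 := by
    obtain ⟨z, hz, hz'⟩ := h0
    exact hz.trans (hmax z hz')
  have hy1pos : 0 < y1 := by linarith
  -- factor
  obtain ⟨S, hS⟩ : (X - C y1) ∣ R := dvd_iff_isRoot.2 hy1
  have hS0 : S ≠ 0 := by
    rintro rfl
    rw [mul_zero] at hS
    exact hR0 hS
  have hSs : S.Splits := by
    refine hR.of_dvd hR0 ?_
    rw [hS]
    exact Dvd.intro_left _ rfl
  have hSlc : S.leadingCoeff = R.leadingCoeff := by
    rw [hS, leadingCoeff_mul, leadingCoeff_X_sub_C, one_mul]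
  have hSdeg : R.natDegree = S.natDegree + 1 := by
    rw [hS, natDegree_mul (X_sub_C_ne_zero y1) hS0, natDegree_X_sub_C]
    ring
  have hSroot : ∀ z ∈ S.roots, R.IsRoot z := by
    intro z hz
    rw [mem_roots hS0] at hz
    rw [hS, IsRoot.def, eval_mul, hz.eq_zero, mul_zero]
  have hRe : ∀ x, R.eval x = (x - y1) * S.eval x := by
    intro x
    conv_lhs => rw [hS]
    simp
  have hRd : ∀ x, (derivative R).eval x = S.eval x + (x - y1) * (derivative S).eval x := by
    intro x
    conv_lhs => rw [hS]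
    simp [derivative_mul]
  have hdy1 : (derivative R).eval y1 = S.eval y1 := by rw [hRd]; ring
  have hSb := split_bound (x := y1) (L := L) hSs (by rw [hSlc]; exact hlc)
    (fun z hz => ⟨(hL z (hSroot z hz)).1, hmax z (hSroot z hz)⟩)
  obtain ⟨α, β, hα, hβ, hGy1⟩ := hG y1 hy1pos
  rw [hy1.eq_zero, mul_zero, zero_add, hdy1] at hGy1
  rcases eq_or_lt_of_le hSb.1 with h1 | h1
  · left
    exact ⟨y1, hty, by rw [IsRoot.def, hGy1, ← h1, mul_zero]⟩
  have hSlt : ∀ z ∈ S.roots, z < y1 := by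
    intro z hz
    refine lt_of_le_of_ne (hmax z (hSroot z hz)) ?_
    rintro rfl
    rw [mem_roots hS0] at hz
    rw [hz.eq_zero] at h1
    exact lt_irrefl _ h1
  have hx0 : 0 < y1 - δ := by linarith
  -- the left end of the interval
  obtain ⟨x', hx1, hx2, hx3, hx4⟩ : ∃ x', y1 - δ ≤ x' ∧ x' < y1 ∧ (∀ z ∈ S.roots, z ≤ x') ∧
      (x' = y1 - δ ∨ S.eval x' = 0) := by
    by_cases hcase : ∀ z ∈ S.roots, z ≤ y1 - δ
    · exact ⟨y1 - δ, le_rfl, by linarith, hcase, Or.inl rfl⟩
    · push Not at hcase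
      obtain ⟨z, hz, hz'⟩ := hcase
      have hne : S.roots.toFinset.Nonempty := ⟨z, by rw [Multiset.mem_toFinset]; exact hz⟩
      obtain ⟨w, h2, h3⟩ := S.roots.toFinset.exists_max_image id hne
      rw [Multiset.mem_toFinset] at h2
      have h3' : ∀ z ∈ S.roots, z ≤ w := fun z hz => h3 z (by rw [Multiset.mem_toFinset]; exact hz)
      refine ⟨w, (hz'.le).trans (h3' z hz), hSlt w h2, h3', Or.inr ?_⟩
      exact ((mem_roots hS0).1 h2).eq_zero
  have hx'pos : 0 < x' := by linarith
  have hb := split_bound (x := x') (L := L) hSs (by rw [hSlc]; exact hlc)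
    (fun z hz => ⟨(hL z (hSroot z hz)).1, hx3 z hz⟩)
  obtain ⟨hb1, hb2, hb3⟩ := hb
  have hRx : R.eval x' ≤ 0 := by
    rw [hRe]
    exact mul_nonpos_of_nonpos_of_nonneg (by linarith) hb1
  have hy1L : y1 ≤ L := (hL y1 hy1).2
  have hDx : (derivative R).eval x' ≤ 0 := by
    rw [hRd]
    rcases hx4 with h2 | h2
    · have hd : x' - y1 = -δ := by rw [h2]; ring
      rw [hd]
      have hNS : (R.natDegree : ℝ) = S.natDegree + 1 := by rw [hSdeg]; push_cast; ring
      rw [hNS] at hN
      have hLx : 0 < x' + L := by linarith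
      have h5 : S.eval x' * (x' + L) ≤ δ * (derivative S).eval x' * (x' + L) := by
        have h6 : S.eval x' * (x' + L) ≤ S.eval x' * (δ * S.natDegree) :=
          mul_le_mul_of_nonneg_left (by linarith) hb1
        nlinarith [mul_le_mul_of_nonneg_left hb3 hδ.le]
      have h7 : S.eval x' ≤ δ * (derivative S).eval x' := le_of_mul_le_mul_right h5 hLx
      linarith
    · rw [h2, zero_add]
      exact mul_nonpos_of_nonpos_of_nonneg (by linarith) hb2
  obtain ⟨α', β', hα', hβ', hGx⟩ := hG x' hx'pos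
  have hGx' : G.eval x' ≤ 0 := by
    rw [hGx]
    have := mul_nonpos_of_nonneg_of_nonpos hα' hRx
    have := mul_nonpos_of_nonneg_of_nonpos hβ'.le hDx
    linarith
  have hGy : 0 ≤ G.eval y1 := by
    rw [hGy1]; positivity
  obtain ⟨z, hz, hz'⟩ := intermediate_value_Icc hx2.le (G.continuous.continuousOn (s := Set.Icc x' y1))
    ⟨hGx', hGy⟩
  by_cases hzt : t ≤ z
  · exact Or.inl ⟨z, hzt, hz'⟩
  · push Not at hzt
    exact Or.inr ⟨z, by linarith [hz.1], hzt, hz'⟩

/-- The step of the chain has the form required by `step_root`. -/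
theorem step_form {j : ℕ} (hj : 1 ≤ j) (p : ℕ × ℝ[X]) (y : ℝ) (hy : 0 < y) :
    ∃ α β : ℝ, 0 ≤ α ∧ 0 < β ∧
      (step j p).2.eval y = α * p.2.eval y + β * (derivative p.2).eval y := by
  have hjr : (0 : ℝ) < j := by exact_mod_cast hj
  unfold step
  by_cases h0 : p.1 = 0
  · rw [if_pos h0]
    exact ⟨0, j, le_rfl, hjr, by simp⟩
  · rw [if_neg h0]
    refine ⟨p.1, j * y, by positivity, by positivity, by simp⟩

end Pool.Agent.KS6_23.SH
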